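import Mathlib
import Pool.Agent.P.MP_7283bc_al.Defs
import Pool.Agent.P.MP_7283bc_al.Main

namespace Pool.Agent.Results.MP_7283bc_al.UKNotAK

open MvPolynomial Pool.Agent.P.MP_7283bc_al

/-- There is a homogeneous ideal `I ⊆ (x_1, ..., x_8)^2` of `F_2[x_1, ..., x_8]` such that
`R = S / I` is universally Koszul but not absolutely Koszul. -/
theorem result :
    ∃ I : Ideal (MvPolynomial (Fin 8) (ZMod 2)),
      (∀ p ∈ I, ∀ k : ℕ, homogeneousComponent k p ∈ I) ∧
      I ≤ Ideal.span (Set.range (X : Fin 8 → MvPolynomial (Fin 8) (ZMod 2))) ^ 2 ∧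
      UniversallyKoszul I ∧ ¬ AbsolutelyKoszul I := by
  refine ⟨II, fun p hp k => hc_mem_ker hp k, ker_le_sq, uk_of_short short_RR, fun h => ?_⟩
  obtain ⟨F, hF⟩ := exists_ld_top short_RR wit_RR R2_le
  exact absurd (h _ _ graded_range F) (by rw [hF]; exact lt_irrefl _)

end Pool.Agent.Results.MP_7283bc_al.UKNotAK
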